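import Pool.Agent.Helper53_CookLevin.CookLevin

/-!
# Derived constructions for the language of polynomial-time generators
-/

set_option linter.unusedSectionVars false

namespace Pool.Agent.Helper81_LoadPoly

open Pool.Agent.Helper53_CookLevin

variable {C : Type} [Inhabited C]

theorem vecCons_comp_succ {m : ℕ} (w : List C) (ρ : Fin m → List C) :
    (Matrix.vecCons w ρ) ∘ Fin.succ = ρ := by
  funext i
  simp

/-- weakening: forget the newest variable -/
theorem PGen.weak {m : ℕ} {F : (Fin m → List C) → List C} (h : PGen m F) :
    PGen (m + 1) (fun ρ => F (ρ ∘ Fin.succ)) := PGen.rename Fin.succ h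

open Classical in
/-- decidable conditions on words -/
def PDec (m : ℕ) (P : (Fin m → List C) → Prop) : Prop :=
  PGen m (fun ρ => if P ρ then [default] else [])

theorem PGen.ite {m : ℕ} {P : (Fin m → List C) → Prop} {inst : ∀ ρ, Decidable (P ρ)}
    {F G : (Fin m → List C) → List C}
    (hP : PDec m P) (hF : PGen m F) (hG : PGen m G) :
    PGen m (fun ρ => if P ρ then F ρ else G ρ) := by
  have h1 := PGen.caseLast (C := C) (0 : Fin (m + 1)) (fun o ρ =>
        if o.isSome then F (ρ ∘ Fin.succ) else G (ρ ∘ Fin.succ)) (by
    intro c
    cases c with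
    | none => simpa using PGen.weak hG
    | some c => simpa using PGen.weak hF)
  have h2 := PGen.letw hP h1
  refine (congrArg (PGen m) (funext fun ρ => ?_)).mp h2
  by_cases h : P ρ
  · simp [h, vecCons_comp_succ]
  · simp [h, vecCons_comp_succ]

open Classical in
theorem PDec.not {m : ℕ} {P : (Fin m → List C) → Prop} (hP : PDec m P) :
    PDec m (fun ρ => ¬ P ρ) := by
  have h := PGen.ite (inst := fun _ => Classical.propDecidable _) hP (PGen.const (m := m) ([] : List C)) (PGen.const [default])
  refine (congrArg (PGen m) (funext fun ρ => ?_)).mp h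
  by_cases h : P ρ <;> simp [h]

open Classical in
theorem PDec.and {m : ℕ} {P Q : (Fin m → List C) → Prop} (hP : PDec m P) (hQ : PDec m Q) :
    PDec m (fun ρ => P ρ ∧ Q ρ) := by
  have h := PGen.ite (inst := fun _ => Classical.propDecidable _) hP hQ (PGen.const [])
  refine (congrArg (PGen m) (funext fun ρ => ?_)).mp h
  by_cases h : P ρ <;> by_cases h' : Q ρ <;> simp [h, h']

open Classical in
theorem PDec.or {m : ℕ} {P Q : (Fin m → List C) → Prop} (hP : PDec m P) (hQ : PDec m Q) :
    PDec m (fun ρ => P ρ ∨ Q ρ) := by
  have h := PGen.ite (inst := fun _ => Classical.propDecidable _) hP (PGen.const (m := m) [default]) hQ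
  refine (congrArg (PGen m) (funext fun ρ => ?_)).mp h
  by_cases h : P ρ <;> by_cases h' : Q ρ <;> simp [h, h']

theorem PDec.const {m : ℕ} (p : Prop) : PDec (C := C) m (fun _ => p) := by
  by_cases h : p
  · simpa [PDec, h] using PGen.const (m := m) [(default : C)]
  · simpa [PDec, h] using PGen.const (m := m) ([] : List C)

theorem PDec.congr {m : ℕ} {P Q : (Fin m → List C) → Prop} (hP : PDec m P)
    (h : ∀ ρ, P ρ ↔ Q ρ) : PDec m Q := by
  refine (congrArg (PDec m) (funext fun ρ => ?_)).mp hP
  exact propext (h ρ)

/-- non-emptiness of a generated word -/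
theorem PDec.nonempty {m : ℕ} {F : (Fin m → List C) → List C} (hF : PGen m F) :
    PDec m (fun ρ => F ρ ≠ []) := by
  have h1 := PGen.caseLast (C := C) (0 : Fin (m + 1)) (fun o _ =>
        if o.isSome then [default] else []) (by
    intro c
    cases c with
    | none => simpa using PGen.const []
    | some c => simpa using PGen.const [default])
  have h2 := PGen.letw hF h1
  refine (congrArg (PGen m) (funext fun ρ => ?_)).mp h2
  by_cases h : F ρ = []
  · simp [h]
  · simp [h]

theorem PDec.lenLE {m : ℕ} (i j : Fin m) :
    PDec (C := C) m (fun ρ => (ρ i).length ≤ (ρ j).length) := by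
  have h := (PDec.nonempty (PGen.drop (C := C) i j)).not
  refine h.congr ?_
  intro ρ
  simp [List.drop_eq_nil_iff]

theorem PDec.lenEq {m : ℕ} (i j : Fin m) :
    PDec (C := C) m (fun ρ => (ρ i).length = (ρ j).length) := by
  refine ((PDec.lenLE i j).and (PDec.lenLE j i)).congr ?_
  intro ρ
  exact le_antisymm_iff.symm

/-- the letters of a word one after the other, together with the rest of the word -/
def scanS {C D : Type} (g : C → List C → List D) : List C → List D
  | [] => []
  | c :: l => g c l ++ scanS g l

theorem scan_eq_scanS (g : C → List C → List C) : ∀ (l p : List C),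
    scan (fun p' c => g c ((p ++ l).drop (p'.length + 1))) p l = scanS g l
  | [], p => rfl
  | c :: l, p => by
    have h := scan_eq_scanS g l (p ++ [c])
    rw [List.append_assoc, List.singleton_append] at h
    rw [scan, scanS, h]
    congr 1
    congr 1
    rw [← List.drop_drop, List.drop_left]
    rfl

/-- loop over the letters of a variable, with the rest of the word as new variable -/
theorem PGen.loopS {m : ℕ} (j : Fin m) (F : C → (Fin (m + 1) → List C) → List C)
    (h : ∀ c, PGen (m + 1) (F c)) :
    PGen m (fun ρ => scanS (fun c s => F c (Matrix.vecCons s ρ)) (ρ j)) := by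
  have h1 : ∀ c, PGen (m + 1) (fun ρ : Fin (m + 1) → List C =>
      F c (Matrix.vecCons ((ρ j.succ).drop ((ρ 0).length + 1)) (ρ ∘ Fin.succ))) := by
    intro c
    -- variables: rest, prefix, ρ
    have h2 : PGen (m + 2) (fun ρ : Fin (m + 2) → List C =>
        F c (ρ ∘ (Matrix.vecCons 0 (fun i => i.succ.succ)))) :=
      PGen.rename _ (h c)
    have h3 : PGen (m + 1) (fun ρ : Fin (m + 1) → List C =>
        (ρ j.succ).drop ((ρ 0).length + 1)) := by
      have h4 : PGen (m + 1) (fun ρ : Fin (m + 1) → List C => scan (fun _ c => [c]) [] (ρ 0) ++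
          [default]) := by
        refine PGen.append (PGen.loop 0 (fun c _ => [c]) (fun c => PGen.const [c])) (PGen.const _)
      have h5 := PGen.letw h4 (PGen.drop (C := C) j.succ.succ 0)
      refine (congrArg (PGen (m + 1)) (funext fun ρ => ?_)).mp h5
      have e : ∀ (l p : List C), scan (fun _ c => [c]) p l = l := by
        intro l
        induction l with
        | nil => intro p; rfl
        | cons c l ih => intro p; rw [scan, ih]; rfl
      simp [e]
    have h6 := PGen.letw h3 h2
    refine (congrArg (PGen (m + 1)) (funext fun ρ => ?_)).mp h6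
    congr 1
    funext i
    refine Fin.cases ?_ (fun i => ?_) i <;> simp
  have h7 := PGen.loop j _ h1
  refine (congrArg (PGen m) (funext fun ρ => ?_)).mp h7
  rw [← scan_eq_scanS (fun c s => F c (Matrix.vecCons s ρ)) (ρ j) []]
  simp [vecCons_comp_succ]

theorem scan_takeWhile (P : C → Prop) [DecidablePred P] : ∀ (l p : List C), (∀ x ∈ p, P x) →
    scan (fun q c => if (∀ x ∈ q, P x) ∧ P c then [c] else []) p l = l.takeWhile P
  | [], p, _ => rfl
  | c :: l, p, hp => by
    by_cases hc : P c
    · rw [scan, scan_takeWhile P l (p ++ [c])]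
      · rw [if_pos ⟨hp, hc⟩, List.takeWhile_cons_of_pos (by simpa using hc)]
        rfl
      · intro x hx
        rcases List.mem_append.1 hx with h | h
        · exact hp x h
        · rw [List.mem_singleton] at h
          rw [h]
          exact hc
    · have key : ∀ (l p : List C), (¬ ∀ x ∈ p, P x) →
          scan (fun q c => if (∀ x ∈ q, P x) ∧ P c then [c] else []) p l = [] := by
        intro l
        induction l with
        | nil => intro p _; rfl
        | cons d l ih =>
          intro p hp
          rw [scan, ih (p ++ [d]) (fun h => hp (fun x hx => h x (List.mem_append_left _ hx))),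
            if_neg (fun h => hp h.1)]
          rfl
      rw [scan, key l (p ++ [c]) (fun h => hc (h c (by simp))), if_neg (fun h => hc h.2)]
      simp [hc]

/-- all letters of a variable satisfy a condition -/
theorem PDec.all {m : ℕ} (j : Fin m) (P : C → Prop) :
    PDec m (fun ρ : Fin m → List C => ∀ x ∈ ρ j, P x) := by
  classical
  have h := PGen.loop (C := C) (m := m) j (fun c _ => if P c then [] else [default]) (fun c => by
    by_cases hc : P c
    · simpa [hc] using PGen.const []
    · simpa [hc] using PGen.const [default])
  refine (PDec.nonempty h).not.congr ?_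
  intro ρ
  have key : ∀ (l p : List C), scan (fun (_ : List C) c => if P c then [] else [(default : C)]) p l
      = [] ↔ ∀ x ∈ l, P x := by
    intro l
    induction l with
    | nil => intro p; simp [scan]
    | cons c l ih =>
      intro p
      rw [scan, List.append_eq_nil_iff, ih]
      by_cases hc : P c <;> simp [hc]
  rw [not_not]
  exact key (ρ j) []

theorem PGen.takeWhile {m : ℕ} (j : Fin m) (P : C → Prop) [DecidablePred P] :
    PGen m (fun ρ : Fin m → List C => (ρ j).takeWhile P) := by
  classical
  have h := PGen.loop (C := C) (m := m) j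
    (fun c ρ => if (∀ x ∈ ρ 0, P x) ∧ P c then [c] else []) (fun c => by
      exact PGen.ite
        ((PDec.all (0 : Fin (m + 1)) P).and (PDec.const (P c))) (PGen.const [c])
        (PGen.const []))
  refine (congrArg (PGen m) (funext fun ρ => ?_)).mp h
  simp only [Matrix.cons_val_zero]
  rw [← scan_takeWhile P (ρ j) [] (by simp)]
  congr 1

/-- concatenation over a fixed list -/
theorem PGen.list {m : ℕ} {α : Type} : ∀ (l : List α) (F : α → (Fin m → List C) → List C)
    (_ : ∀ a ∈ l, PGen m (F a)), PGen m (fun ρ => l.flatMap (fun a => F a ρ))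
  | [], _, _ => by simpa using PGen.const []
  | a :: l, F, h => by
    have h1 := PGen.append (h a (by simp)) (PGen.list l F (fun b hb => h b (by simp [hb])))
    simpa using h1

end Pool.Agent.Helper81_LoadPoly
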