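import Pool.Agent.Helper81_Load.Defs
import Pool.Agent.Helper32_HCK.Defs

/-!
# The loading problem as a decision problem over a finite alphabet
-/

namespace Pool.Agent.Helper81_LoadPoly

open Pool.Agent.Helper81_Load Pool.Agent.Helper32_HCK

/-- The word encoding an instance of the loading problem, over the alphabet `{none, 0, 1}`:
the number `k` in unary (`k` times the letter `none`), then for each labelled example its label
followed by its `k` coordinates. Its length is `k + m (k + 1)` for `m` examples. -/
def encodeInstance (I : Instance) : List (Option Bool) :=
  List.replicate I.k none ++
    I.examples.flatMap fun e => some e.2 :: (List.ofFn e.1).map some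

theorem encodeInstance_injective : Function.Injective encodeInstance := by
  rintro ⟨k, E⟩ ⟨k', E'⟩ h
  have hc : ∀ I : Instance, (encodeInstance I).countP (fun a => a.isNone) = I.k := by
    intro I
    unfold encodeInstance
    rw [List.countP_append, List.countP_replicate]
    have h0 : List.countP (fun a : Option Bool => a.isNone) (I.examples.flatMap fun e =>
        (some e.2 : Option Bool) :: (List.ofFn e.1).map some) = 0 := by
      rw [List.countP_eq_zero]
      intro a ha
      obtain ⟨e, -, he⟩ := List.mem_flatMap.1 ha
      rcases List.mem_cons.1 he with rfl | he
      · simp
      · obtain ⟨b, -, rfl⟩ := List.mem_map.1 he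
        simp
    rw [h0]
    simp
  have hk : k = k' := by
    have h1 := hc ⟨k, E⟩
    rw [h, hc ⟨k', E'⟩] at h1
    exact h1.symm
  subst hk
  unfold encodeInstance at h
  have h2 := List.append_cancel_left h
  have key : ∀ (E E' : List ((Fin k → Bool) × Bool)),
      E.flatMap (fun e => (some e.2 : Option Bool) :: (List.ofFn e.1).map some) =
      E'.flatMap (fun e => (some e.2 : Option Bool) :: (List.ofFn e.1).map some) → E = E' := by
    intro E
    induction E with
    | nil =>
      intro E' h
      cases E' with
      | nil => rfl
      | cons e E' => simp at h
    | cons e E ih =>
      intro E' h
      cases E' with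
      | nil => simp at h
      | cons e' E' =>
        rw [List.flatMap_cons, List.flatMap_cons] at h
        obtain ⟨h3, h4⟩ := List.append_inj h (by simp)
        have h5 := List.cons.inj h3
        have h6 : e.1 = e'.1 := List.ofFn_injective
          (List.map_injective_iff.2 (Option.some_injective _) h5.2)
        rw [ih E' h4, Prod.ext h6 (Option.some_injective _ h5.1)]
  rw [key E E' h2]

/-- The loading problem for the three-neuron network as a decision problem. -/
def loadingProblem : DecisionProblem where
  Inst := Instance
  Alph := Option Bool
  alphFintype := inferInstance
  enc := encodeInstance
  enc_injective := encodeInstance_injective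
  Yes := Loadable

/-- NP-hardness under polynomial-time many-one reductions: every language `L ⊆ {0,1}*` in NP is
polynomial-time many-one reducible to `P`. -/
def NPHard (P : DecisionProblem) : Prop :=
  ∀ L : Set (List Bool), InNP (languageProblem L) → PolyReduces (languageProblem L) P

end Pool.Agent.Helper81_LoadPoly
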