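import Pool.Agent.Helper81_LoadPoly.Lang
import Pool.Agent.Helper81_Load.Hypergraph

/-!
# The reduction from satisfiability to loading is written by a polynomial-time generator
-/

set_option linter.unusedSectionVars false

namespace Pool.Agent.Helper81_LoadPoly

open Pool.Agent.Helper53_CookLevin
open Pool.Agent.Helper81_Load (quads balanced exampleList ofHypergraph Instance Loadable)

/-! ### Literals in an encoded clause -/

/-- `[tick]` for each occurrence of the literal `(i, b)` in an encoded clause -/
def litWord (b : Bool) (i : ℕ) (cl : List CNFLetter) : List CNFLetter :=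
  scanS (fun c s => if c = bitLetter b ∧ (s.takeWhile (· = .tick)).length = i then [.tick] else [])
    cl

theorem bitLetter_ne_tick (b : Bool) : CNFLetter.tick ≠ bitLetter b := by
  cases b <;> simp [bitLetter]

theorem bitLetter_inj {b b' : Bool} : bitLetter b = bitLetter b' ↔ b = b' := by
  cases b <;> cases b' <;> simp [bitLetter]

theorem takeWhile_lits : ∀ (C : List (ℕ × Bool)),
    (C.flatMap encLit).takeWhile (· = .tick) = []
  | [] => rfl
  | l :: C => by
    rw [List.flatMap_cons, encLit]
    cases l.2 <;> simp

theorem takeWhile_ticks (n : ℕ) (C : List (ℕ × Bool)) :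
    (List.replicate n CNFLetter.tick ++ C.flatMap encLit).takeWhile (· = .tick) =
      List.replicate n CNFLetter.tick := by
  rw [List.takeWhile_append_of_pos (by
    intro x hx
    rw [List.mem_replicate] at hx
    simp [hx.2]), takeWhile_lits, List.append_nil]

theorem scanS_append_nil {D : Type} (g : CNFLetter → List CNFLetter → List D) :
    ∀ (l r : List CNFLetter) (_ : ∀ c ∈ l, ∀ s, g c s = []), scanS g (l ++ r) = scanS g r
  | [], r, _ => rfl
  | c :: l, r, h => by
    rw [List.cons_append, scanS, h c (by simp), scanS_append_nil g l r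
      (fun c hc => h c (by simp [hc])), List.nil_append]

theorem litWord_iff (b : Bool) (i : ℕ) : ∀ (C : List (ℕ × Bool)),
    litWord b i (C.flatMap encLit) ≠ [] ↔ (i, b) ∈ C
  | [] => by simp [litWord, scanS]
  | l :: C => by
    have ih := litWord_iff b i C
    unfold litWord at ih ⊢
    have e : encLit l = bitLetter l.2 :: List.replicate l.1 .tick := rfl
    rw [List.flatMap_cons, e, List.cons_append, scanS, takeWhile_ticks, List.length_replicate,
      scanS_append_nil _ (List.replicate l.1 .tick) _ (by
        intro c hc s
        rw [List.mem_replicate] at hc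
        rw [if_neg]
        rintro ⟨h, -⟩
        exact bitLetter_ne_tick b (hc.2.symm.trans h)), List.mem_cons, ← ih]
    by_cases h : l.2 = b ∧ l.1 = i
    · obtain ⟨rfl, rfl⟩ := h
      simp
    · rw [if_neg (fun h' => h ⟨bitLetter_inj.1 h'.1, h'.2⟩), List.nil_append]
      constructor
      · exact Or.inr
      · rintro (h' | h')
        · exact absurd ⟨(congrArg Prod.snd h').symm, (congrArg Prod.fst h').symm⟩ h
        · exact h'

/-! ### Vectors as words -/

/-- the word of a vector given by a function on indices -/
def vecWord (m : ℕ) (f : ℕ → Bool) : List CNFLetter :=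
  (List.range m).flatMap fun j => [bitLetter (f j)]

theorem vecWord_split (f : ℕ → Bool) : ∀ n : ℕ, vecWord (2 * n + 1) f =
    (List.range n).flatMap (fun i => [bitLetter (f (2 * i))] ++ [bitLetter (f (2 * i + 1))]) ++
      [bitLetter (f (2 * n))]
  | 0 => by simp [vecWord]
  | n + 1 => by
    have ih := vecWord_split f n
    unfold vecWord at ih ⊢
    have e : 2 * (n + 1) + 1 = (2 * n + 1) + 1 + 1 := by ring
    rw [e, List.range_succ, List.flatMap_append, List.range_succ, List.flatMap_append, ih,
      List.range_succ (n := n), List.flatMap_append]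
    simp only [List.flatMap_cons, List.flatMap_nil, List.append_nil, List.append_assoc,
      List.cons_append, List.nil_append]
    have e' : 2 * (n + 1) = 2 * n + 1 + 1 := by ring
    rw [e']

theorem vecWord_eq (m : ℕ) (f : ℕ → Bool) :
    (List.ofFn (fun j : Fin m => f j.val)).map bitLetter = vecWord m f := by
  unfold vecWord
  rw [List.map_ofFn, ← List.map_eq_flatMap]
  apply List.ext_getElem
  · simp
  · intro i h1 h2
    simp

/-- the examples belonging to the word of a vector `x`; the labels are given by `lab` -/
def block (lab : (Fin 4 → Bool) → Bool) (x : List CNFLetter) : List CNFLetter :=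
  quads.flatMap fun y => [bitLetter (lab y)] ++ (x ++ (List.ofFn y).map bitLetter)

/-- the vector of an encoded clause -/
def clauseVec (n : ℕ) (cl : List CNFLetter) : List CNFLetter :=
  (List.range n).flatMap (fun i => (if litWord false i cl ≠ [] then [.pos] else [.neg]) ++
    (if litWord true i cl ≠ [] then [.pos] else [.neg])) ++ [.pos]

/-- the word written by the generator -/
def genWord (w : List CNFLetter) : List CNFLetter :=
  List.replicate (2 * w.length + 5) .tick ++
  (block balanced (vecWord (2 * w.length + 1) (fun _ => false)) ++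
  ((List.range w.length).flatMap (fun i =>
    block balanced (vecWord (2 * w.length + 1) (fun j => decide (j / 2 = i)))) ++
  (scanS (fun c s => if c = .clause then
    block balanced (clauseVec w.length (s.takeWhile (· ≠ .clause))) else []) w ++
  (List.range (2 * w.length + 1)).flatMap (fun i =>
    block (fun _ => false) (vecWord (2 * w.length + 1) (fun j => decide (j = i)))))))

/-! ### The generator -/

theorem pgen_block {m : ℕ} (lab : (Fin 4 → Bool) → Bool)
    {F : (Fin m → List CNFLetter) → List CNFLetter} (h : PGen m F) :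
    PGen m (fun ρ => block lab (F ρ)) := by
  unfold block
  exact PGen.list quads _ (fun y _ => PGen.append (PGen.const _) (PGen.append h (PGen.const _)))

/-- loop over `0, …, |ρ j| - 1` -/
theorem PGen.loopLen {m : ℕ} (j : Fin m) (G : ℕ → (Fin m → List CNFLetter) → List CNFLetter)
    (h : PGen (m + 1) (fun ρ => G (ρ 0).length (ρ ∘ Fin.succ))) :
    PGen m (fun ρ => (List.range (ρ j).length).flatMap (fun i => G i ρ)) := by
  have h1 := PGen.loop j (fun _ => fun ρ : Fin (m + 1) → List CNFLetter =>
    G (ρ 0).length (ρ ∘ Fin.succ)) (fun _ => h)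
  refine (congrArg (PGen m) (funext fun ρ => ?_)).mp h1
  rw [scan_length _ (fun k => G k ρ) (fun q _ => by simp [vecCons_comp_succ])]
  simp

open Classical in
theorem PDec.lit {m : ℕ} (b : Bool) (i j : Fin m) :
    PDec m (fun ρ : Fin m → List CNFLetter => litWord b (ρ i).length (ρ j) ≠ []) := by
  unfold litWord
  apply PDec.nonempty
  have h : ∀ c : CNFLetter, PGen (m + 1) (fun ρ : Fin (m + 1) → List CNFLetter =>
      if c = bitLetter b ∧ ((ρ 0).takeWhile (· = .tick)).length = (ρ i.succ).length then
        [CNFLetter.tick] else []) := by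
    intro c
    have h1 : PDec (m + 1) (fun ρ : Fin (m + 1) → List CNFLetter =>
        ((ρ 0).takeWhile (· = .tick)).length = (ρ i.succ).length) := by
      have h2 := PDec.lenEq (C := CNFLetter) (0 : Fin (m + 2)) i.succ.succ
      have h3 := PGen.letw (PGen.takeWhile (0 : Fin (m + 1)) (fun c : CNFLetter => c = .tick)) h2
      refine (congrArg (PGen (m + 1)) (funext fun ρ => ?_)).mp h3
      simp
    exact PGen.ite ((PDec.const _).and h1) (PGen.const _) (PGen.const _)
  have h2 := PGen.loopS j (fun c ρ => if c = bitLetter b ∧
    ((ρ 0).takeWhile (· = .tick)).length = (ρ i.succ).length then [CNFLetter.tick] else []) h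
  refine (congrArg (PGen m) (funext fun ρ => ?_)).mp h2
  simp only [Matrix.cons_val_zero, Matrix.cons_val_succ]

theorem pgen_clauseVec {m : ℕ} (i j : Fin m) :
    PGen m (fun ρ : Fin m → List CNFLetter => clauseVec (ρ i).length (ρ j)) := by
  unfold clauseVec
  refine PGen.append (PGen.loopLen i (fun k ρ => (if litWord false k (ρ j) ≠ [] then [.pos]
    else [.neg]) ++ (if litWord true k (ρ j) ≠ [] then [.pos] else [.neg])) ?_) (PGen.const _)
  refine PGen.append ?_ ?_
  · exact PGen.ite (PDec.lit false (0 : Fin (m + 1)) j.succ) (PGen.const _) (PGen.const _)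
  · exact PGen.ite (PDec.lit true (0 : Fin (m + 1)) j.succ) (PGen.const _) (PGen.const _)

theorem pgen_bit {m : ℕ} {P : (Fin m → List CNFLetter) → Prop} {inst : ∀ ρ, Decidable (P ρ)}
    (h : PDec m P) : PGen m (fun ρ => [bitLetter (decide (P ρ))]) := by
  refine (congrArg (PGen m) (funext fun ρ => ?_)).mp
    (PGen.ite (inst := inst) h (PGen.const [CNFLetter.pos]) (PGen.const [CNFLetter.neg]))
  by_cases h : P ρ <;> simp [h, bitLetter]

theorem num_two (m : ℕ) (j : Fin m) : Num CNFLetter.tick m (fun a => 2 * a j + 1) :=
  Helper53_CookLevin.Num.add (Helper53_CookLevin.Num.mul (Helper53_CookLevin.Num.const _ 2)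
    (Helper53_CookLevin.Num.var _ j)) (Helper53_CookLevin.Num.const _ 1)

theorem pgen_zero : PGen 1 (fun ρ : Fin 1 → List CNFLetter =>
    vecWord (2 * (ρ 0).length + 1) (fun _ => false)) :=
  LGen.loop (num_two 1 0) (LGen.const [bitLetter false])

theorem pgen_unit : PGen 2 (fun ρ : Fin 2 → List CNFLetter =>
    vecWord (2 * (ρ 1).length + 1) (fun j => decide (j = (ρ 0).length))) := by
  have h : LGen 3 (fun a : Fin 3 → ℕ => [bitLetter (decide (a 0 = a 1))]) :=
    pgen_bit (PDec.lenEq (0 : Fin 3) 1)
  have h1 := LGen.loop (num_two 2 1) h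
  exact h1

theorem pgen_pair : PGen 2 (fun ρ : Fin 2 → List CNFLetter =>
    vecWord (2 * (ρ 1).length + 1) (fun j => decide (j / 2 = (ρ 0).length))) := by
  have h : PGen 3 (fun ρ : Fin 3 → List CNFLetter =>
      [bitLetter (decide ((ρ 0).length = (ρ 1).length))] ++
      [bitLetter (decide ((ρ 0).length = (ρ 1).length))]) :=
    PGen.append (pgen_bit (PDec.lenEq (0 : Fin 3) 1)) (pgen_bit (PDec.lenEq (0 : Fin 3) 1))
  have h1 := PGen.append (PGen.loopLen (1 : Fin 2) (fun k ρ =>
    [bitLetter (decide (k = (ρ 0).length))] ++ [bitLetter (decide (k = (ρ 0).length))]) h)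
    (pgen_bit (inst := fun _ => inferInstance) (PDec.lenEq (1 : Fin 2) 0))
  refine (congrArg (PGen 2) (funext fun ρ => ?_)).mp h1
  rw [vecWord_split]
  have e1 : ∀ i, 2 * i / 2 = i := by intro i; omega
  have e2 : ∀ i, (2 * i + 1) / 2 = i := by intro i; omega
  simp only [e1, e2]

theorem pgen_genWord : PGen 1 (fun ρ : Fin 1 → List CNFLetter => genWord (ρ 0)) := by
  have h1 : PGen 1 (fun ρ : Fin 1 → List CNFLetter =>
      List.replicate (2 * (ρ 0).length + 5) CNFLetter.tick) :=
    Helper53_CookLevin.Num.add (Helper53_CookLevin.Num.mul (Helper53_CookLevin.Num.const _ 2)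
      (Helper53_CookLevin.Num.var _ 0)) (Helper53_CookLevin.Num.const _ 5)
  have h3 : PGen 1 (fun ρ : Fin 1 → List CNFLetter => (List.range (ρ 0).length).flatMap (fun i =>
      block balanced (vecWord (2 * (ρ 0).length + 1) (fun j => decide (j / 2 = i))))) :=
    PGen.loopLen (0 : Fin 1) (fun i ρ =>
      block balanced (vecWord (2 * (ρ 0).length + 1) (fun j => decide (j / 2 = i))))
      (pgen_block balanced pgen_pair)
  have h4 : PGen 1 (fun ρ : Fin 1 → List CNFLetter => scanS (fun c s => if c = .clause then
      block balanced (clauseVec (ρ 0).length (s.takeWhile (· ≠ .clause))) else []) (ρ 0)) := by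
    have h5 : ∀ c : CNFLetter, PGen 2 (fun ρ : Fin 2 → List CNFLetter => if c = .clause then
        block balanced (clauseVec (ρ 1).length ((ρ 0).takeWhile (· ≠ .clause))) else []) := by
      intro c
      by_cases hc : c = .clause
      · simp only [if_pos hc]
        refine pgen_block balanced ?_
        exact PGen.letw (PGen.takeWhile (0 : Fin 2) (fun c : CNFLetter => c ≠ .clause))
          (pgen_clauseVec (2 : Fin 3) 0)
      · simp only [if_neg hc]
        exact PGen.const []
    exact PGen.loopS (0 : Fin 1) _ h5
  have h6 : PGen 1 (fun ρ : Fin 1 → List CNFLetter => (List.range (2 * (ρ 0).length + 1)).flatMap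
      (fun i => block (fun _ => false) (vecWord (2 * (ρ 0).length + 1)
        (fun j => decide (j = i))))) := by
    have h7 : LGen 2 (fun a : Fin 2 → ℕ => block (fun _ => false) (vecWord (2 * a 1 + 1)
        (fun j => decide (j = a 0)))) := pgen_block (fun _ => false) pgen_unit
    exact LGen.loop (num_two 1 0) h7
  unfold genWord
  exact PGen.append h1 (PGen.append (pgen_block balanced pgen_zero)
    (PGen.append h3 (PGen.append h4 h6)))

end Pool.Agent.Helper81_LoadPoly
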