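import Pool.Agent.Helper81_LoadPoly.Gen
import Pool.Agent.Helper81_LoadPoly.Defs

/-!
# NP-hardness of the loading problem
-/

namespace Pool.Agent.Helper81_LoadPoly

open Turing Function Computability
open Pool.Agent.Helper53_CookLevin Pool.Agent.Helper32_Poly
open Pool.Agent.Helper32_HCK (DecisionProblem InNP PolyReduces languageProblem)
open Pool.Agent.Helper81_Load (quads balanced exampleList ofHypergraph Instance Loadable)

/-- the edges of the hypergraph of a formula -/
def edgesOf (n : ℕ) (F : Helper53_CookLevin.CNF) : List (Fin (2 * n + 1) → Bool) :=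
  ((List.finRange n).map fun i => fun j => decide (j.val / 2 = i.val)) ++
  (F.map fun C => fun j =>
    decide (j.val = 2 * n) || C.any fun l => decide (j.val = 2 * l.1 + l.2.toNat))

/-- the loading instance of a formula -/
def inst (F : Helper53_CookLevin.CNF) : Instance :=
  ofHypergraph (2 * (encodeCNF F).length + 1) (edgesOf (encodeCNF F).length F)

/-- the encoding of an instance over the alphabet of the generators -/
def encW (I : Instance) : List CNFLetter :=
  List.replicate I.k .tick ++
    I.examples.flatMap fun e => bitLetter e.2 :: (List.ofFn e.1).map bitLetter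

/-! ### The word written by the generator -/

theorem block_eq {m : ℕ} (lab : (Fin 4 → Bool) → Bool) (x : Fin m → Bool) :
    quads.flatMap (fun y => bitLetter (lab y) ::
      (List.ofFn (Fin.append x y : Fin (m + 4) → Bool)).map bitLetter) =
      block lab ((List.ofFn x).map bitLetter) := by
  unfold block
  congr 1
  funext y
  rw [List.ofFn_fin_append, List.map_append]
  rfl

theorem finRange_flatMap {α : Type} (n : ℕ) (H : ℕ → List α) :
    (List.finRange n).flatMap (fun i => H i.val) = (List.range n).flatMap H := by
  have h : List.range n = (List.finRange n).map Fin.val := by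
    simp
  rw [h, List.flatMap_map]

theorem scanS_clauses (n : ℕ) : ∀ (F : Helper53_CookLevin.CNF),
    scanS (fun c s => if c = .clause then
      block balanced (clauseVec n (s.takeWhile (· ≠ .clause))) else []) (encodeCNF F) =
    F.flatMap (fun C => block balanced (clauseVec n (C.flatMap encLit)))
  | [] => rfl
  | C :: F => by
    have hC : ∀ c ∈ C.flatMap encLit, c ≠ CNFLetter.clause := by
      intro c hc
      obtain ⟨l, -, hl⟩ := List.mem_flatMap.1 hc
      rcases List.mem_cons.1 hl with rfl | hl
      · split_ifs <;> simp
      · rw [(List.mem_replicate.1 hl).2]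
        simp
    have h2 : (C.flatMap encLit ++ encodeCNF F).takeWhile (· ≠ .clause) = C.flatMap encLit := by
      rw [List.takeWhile_append_of_pos (by
        intro c hc
        simpa using hC c hc)]
      cases F with
      | nil => simp [encodeCNF]
      | cons D F => rw [encodeCNF_cons]; simp
    rw [encodeCNF_cons, scanS, if_pos rfl, h2, List.flatMap_cons,
      scanS_append_nil _ _ _ (by
        intro c hc s
        rw [if_neg (hC c hc)]), scanS_clauses n F]

theorem flatMap_congr' {α β : Type} (f g : α → List β) : ∀ (l : List α)
    (_ : ∀ a ∈ l, f a = g a), l.flatMap f = l.flatMap g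
  | [], _ => rfl
  | a :: l, h => by
    rw [List.flatMap_cons, List.flatMap_cons, h a (by simp),
      flatMap_congr' f g l (fun b hb => h b (by simp [hb]))]

theorem clauseVec_eq (n : ℕ) (C : List (ℕ × Bool)) :
    clauseVec n (C.flatMap encLit) = vecWord (2 * n + 1) (fun j =>
      decide (j = 2 * n) || C.any fun l => decide (j = 2 * l.1 + l.2.toNat)) := by
  rw [vecWord_split]
  unfold clauseVec
  congr 1
  · apply flatMap_congr'
    intro i hi
    rw [List.mem_range] at hi
    congr 1
    · have h1 : (decide (2 * i = 2 * n) || C.any fun l => decide (2 * i = 2 * l.1 + l.2.toNat)) =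
          decide ((i, false) ∈ C) := by
        rw [Bool.eq_iff_iff]
        simp only [Bool.or_eq_true, decide_eq_true_eq, List.any_eq_true]
        constructor
        · rintro (h | ⟨⟨k, b⟩, hl, h⟩)
          · omega
          · cases b
            · simp only [Bool.toNat_false] at h
              have : i = k := by omega
              rw [this]
              exact hl
            · simp only [Bool.toNat_true] at h
              omega
        · intro h
          exact Or.inr ⟨_, h, by simp⟩
      rw [h1]
      by_cases h : (i, false) ∈ C
      · rw [if_pos ((litWord_iff false i C).2 h)]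
        simp [h, bitLetter]
      · rw [if_neg (fun h' => h ((litWord_iff false i C).1 h'))]
        simp [h, bitLetter]
    · have h1 : (decide (2 * i + 1 = 2 * n) ||
          C.any fun l => decide (2 * i + 1 = 2 * l.1 + l.2.toNat)) =
          decide ((i, true) ∈ C) := by
        rw [Bool.eq_iff_iff]
        simp only [Bool.or_eq_true, decide_eq_true_eq, List.any_eq_true]
        constructor
        · rintro (h | ⟨⟨k, b⟩, hl, h⟩)
          · omega
          · cases b
            · simp only [Bool.toNat_false] at h
              omega
            · simp only [Bool.toNat_true] at h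
              have : i = k := by omega
              rw [this]
              exact hl
        · intro h
          exact Or.inr ⟨_, h, by simp⟩
      rw [h1]
      by_cases h : (i, true) ∈ C
      · rw [if_pos ((litWord_iff true i C).2 h)]
        simp [h, bitLetter]
      · rw [if_neg (fun h' => h ((litWord_iff true i C).1 h'))]
        simp [h, bitLetter]
  · simp [bitLetter]

theorem genWord_eq (F : Helper53_CookLevin.CNF) : genWord (encodeCNF F) = encW (inst F) := by
  obtain ⟨n, hn⟩ : ∃ n, n = (encodeCNF F).length := ⟨_, rfl⟩
  unfold genWord encW inst ofHypergraph exampleList edgesOf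
  rw [scanS_clauses, ← hn]
  simp only [List.flatMap_append, List.flatMap_assoc, List.flatMap_cons, List.flatMap_map]
  rw [List.append_assoc, List.append_assoc]
  congr 1
  congr 1
  · rw [← vecWord_eq (2 * n + 1) (fun _ => false)]
    exact (block_eq balanced _).symm
  congr 1
  · rw [← finRange_flatMap n (fun i => block balanced (vecWord (2 * n + 1)
      (fun j => decide (j / 2 = i))))]
    congr 1
    funext i
    rw [← vecWord_eq]
    exact (block_eq balanced _).symm
  congr 1
  · congr 1
    funext C
    rw [clauseVec_eq, ← vecWord_eq]
    exact (block_eq balanced _).symm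
  · rw [← finRange_flatMap (2 * n + 1) (fun i => block (fun _ => false) (vecWord (2 * n + 1)
      (fun j => decide (j = i))))]
    congr 1
    funext i
    rw [← vecWord_eq]
    have h := block_eq (fun _ => false) (fun j : Fin (2 * n + 1) => decide (j = i))
    refine Eq.trans ?_ h.symm
    congr 2
    congr 1
    funext j
    simp [Fin.ext_iff]

/-! ### Correctness of the reduction -/

theorem lt_length {F : Helper53_CookLevin.CNF} {C : List (ℕ × Bool)} (hC : C ∈ F) {l : ℕ × Bool}
    (hl : l ∈ C) : l.1 < (encodeCNF F).length := by
  have h1 : (encLit l).length ≤ (C.flatMap encLit).length := by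
    obtain ⟨s, t, rfl⟩ := List.append_of_mem hl
    simp only [List.flatMap_append, List.flatMap_cons, List.length_append]
    omega
  have h2 : (C.flatMap encLit).length ≤ (encodeCNF F).length := by
    obtain ⟨s, t, rfl⟩ := List.append_of_mem hC
    rw [encodeCNF_append, encodeCNF_cons]
    simp only [List.length_append, List.length_cons]
    omega
  have h3 : (encLit l).length = l.1 + 1 := by simp [encLit]
  omega

/-- the formula with variables in `Fin n` -/
def toFin (n : ℕ) (F : Helper53_CookLevin.CNF) : Helper81_Load.CNF where
  n := n
  clauses := F.map fun C => C.filterMap fun l => if h : l.1 < n then some (⟨l.1, h⟩, l.2) else none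

theorem mem_toFin {n : ℕ} {C : List (ℕ × Bool)} {x : Fin n × Bool} :
    x ∈ (C.filterMap fun l => if h : l.1 < n then some ((⟨l.1, h⟩ : Fin n), l.2) else none) ↔
      (x.1.val, x.2) ∈ C := by
  rw [List.mem_filterMap]
  constructor
  · rintro ⟨l, hl, h⟩
    split_ifs at h with h1
    rw [Option.some.injEq] at h
    rw [← h]
    exact hl
  · intro h
    refine ⟨_, h, ?_⟩
    rw [dif_pos x.1.2]

theorem edges_toFin (F : Helper53_CookLevin.CNF) (n : ℕ) (hn : n = (encodeCNF F).length) :
    (toFin n F).edges = edgesOf n F := by
  unfold Helper81_Load.CNF.edges edgesOf toFin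
  simp only [List.map_map]
  congr 1
  apply List.map_congr_left
  intro C hC
  funext j
  simp only [Function.comp]
  congr 1
  rw [Bool.eq_iff_iff]
  simp only [List.any_eq_true, decide_eq_true_eq]
  constructor
  · rintro ⟨x, hx, h⟩
    exact ⟨_, mem_toFin.1 hx, h⟩
  · rintro ⟨l, hl, h⟩
    have hlt : l.1 < n := by rw [hn]; exact lt_length hC hl
    exact ⟨(⟨l.1, hlt⟩, l.2), mem_toFin.2 hl, h⟩

theorem sat_iff_loadable (F : Helper53_CookLevin.CNF) :
    (∃ v : ℕ → Bool, ∀ C ∈ F, ∃ l ∈ C, v l.1 = l.2) ↔ Loadable (inst F) := by
  obtain ⟨n, hn⟩ : ∃ n, n = (encodeCNF F).length := ⟨_, rfl⟩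
  have h1 := Helper81_Load.satisfiable_iff_loadable (toFin n F)
  have h2 : (toFin n F).toInstance = inst F := by
    unfold inst Helper81_Load.CNF.toInstance
    rw [← hn, edges_toFin F n hn]
    rfl
  rw [h2] at h1
  rw [← h1]
  unfold Helper81_Load.CNF.Satisfiable
  constructor
  · rintro ⟨v, hv⟩
    refine ⟨fun i => v i.val, fun D hD => ?_⟩
    obtain ⟨C, hC, rfl⟩ := List.mem_map.1 hD
    obtain ⟨l, hl, h⟩ := hv C hC
    have hlt : l.1 < n := by rw [hn]; exact lt_length hC hl
    exact ⟨(⟨l.1, hlt⟩, l.2), mem_toFin.2 hl, h⟩
  · rintro ⟨v, hv⟩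
    refine ⟨fun i => if h : i < n then v ⟨i, h⟩ else false, fun C hC => ?_⟩
    obtain ⟨x, hx, h⟩ := hv _ (List.mem_map.2 ⟨C, hC, rfl⟩)
    refine ⟨_, mem_toFin.1 hx, ?_⟩
    have hlt : x.1.val < n := x.1.2
    simpa [hlt] using h

/-! ### Polynomial time -/

/-- translation of the letters -/
def outLetter : CNFLetter → List (Option Bool)
  | .pos => [some true]
  | .neg => [some false]
  | .tick => [none]
  | .clause => []

theorem outLetter_bit (b : Bool) : outLetter (bitLetter b) = [some b] := by
  cases b <;> rfl

theorem flatMap_bits : ∀ (l : List Bool), (l.map bitLetter).flatMap outLetter = l.map some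
  | [] => rfl
  | b :: l => by
    rw [List.map_cons, List.flatMap_cons, outLetter_bit, flatMap_bits l]
    rfl

theorem encW_out (I : Instance) : (encW I).flatMap outLetter = encodeInstance I := by
  unfold encW encodeInstance
  rw [List.flatMap_append, List.flatMap_assoc]
  congr 1
  · induction I.k with
    | zero => rfl
    | succ k ih => rw [List.replicate_succ, List.flatMap_cons, ih]; rfl
  · congr 1
    funext e
    rw [List.flatMap_cons, outLetter_bit, flatMap_bits]
    rfl

theorem genWord_out (F : Helper53_CookLevin.CNF) :
    (genWord (encodeCNF F)).flatMap outLetter = encodeInstance (inst F) := by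
  rw [genWord_eq, encW_out]

theorem sat_reduces : PolyReduces satProblem loadingProblem := by
  refine ⟨inst, ?_, sat_iff_loadable⟩
  obtain ⟨c1⟩ := pgen_computable (fun ρ : Fin 1 → List CNFLetter => genWord (ρ 0)) pgen_genWord
  have c2 : TM2ComputableInPolyTime (id : List CNFLetter → List CNFLetter)
      (id : List (Option Bool) → List (Option Bool)) (fun w => w.flatMap outLetter) :=
    morphComputable id id _ [] outLetter (fun w => by
      show w.flatMap outLetter = [] ++ w.flatMap outLetter
      rfl)
  obtain ⟨c3⟩ := TM2ComputableInPolyTime.comp c1 c2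
  refine ⟨⟨c3.toTM2ComputableAux, c3.time, fun F => ?_⟩⟩
  have h := c3.outputsFun (encodeCNF F)
  have e : (id (((fun w : List CNFLetter => w.flatMap outLetter) ∘
      fun w : List CNFLetter => genWord (![w] 0)) (encodeCNF F)) : List (Option Bool)) =
      encodeInstance (inst F) := by
    exact genWord_out F
  rw [e] at h
  exact h

theorem loading_hard : NPHard loadingProblem := by
  intro L hL
  obtain ⟨f, ⟨hf⟩, hf'⟩ := sat_hard L hL
  obtain ⟨g, ⟨hg⟩, hg'⟩ := sat_reduces
  exact ⟨g ∘ f, TM2ComputableInPolyTime.comp hf hg, fun x => (hf' x).trans (hg' (f x))⟩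

end Pool.Agent.Helper81_LoadPoly
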